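import Pool.Agent.U643.LSS.Kos

/-!
# Homogeneous polynomials without nontrivial relations form regular sequences in every order
-/

set_option autoImplicit false

namespace Pool.Agent.U643.LSS

open MvPolynomial Finset

variable {k σ : Type*} [CommRing k]

/-- the component of degree `D - e` -/
noncomputable def cmp (D e : ℕ) (p : MvPolynomial σ k) : MvPolynomial σ k :=
  if e ≤ D then homogeneousComponent (D - e) p else 0

lemma cmp_add (D e : ℕ) (p q : MvPolynomial σ k) : cmp D e (p + q) = cmp D e p + cmp D e q := by
  unfold cmp
  split_ifs <;> simp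

lemma cmp_sub (D e : ℕ) (p q : MvPolynomial σ k) : cmp D e (p - q) = cmp D e p - cmp D e q := by
  unfold cmp
  split_ifs <;> simp

lemma cmp_sum {α : Type*} (D e : ℕ) (s : Finset α) (p : α → MvPolynomial σ k) :
    cmp D e (∑ x ∈ s, p x) = ∑ x ∈ s, cmp D e (p x) := by
  unfold cmp
  split_ifs <;> simp

lemma component_mul {e : ℕ} {f : MvPolynomial σ k} (hf : f.IsHomogeneous e) (D : ℕ)
    (p : MvPolynomial σ k) : homogeneousComponent D (p * f) = cmp D e p * f := by
  have h1 : ∀ i, homogeneousComponent D (homogeneousComponent i p * f) =
      if D = i + e then homogeneousComponent i p * f else 0 := fun i =>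
    homogeneousComponent_of_mem ((homogeneousComponent_isHomogeneous i p).mul hf)
  conv_lhs => rw [← sum_homogeneousComponent p, sum_mul, map_sum]
  simp only [h1]
  unfold cmp
  split_ifs with h
  · by_cases h2 : D - e < p.totalDegree + 1
    · rw [sum_eq_single (D - e)]
      · rw [if_pos (by omega)]
      · intro b _ hb
        rw [if_neg (by omega)]
      · intro h3
        exact absurd (mem_range.2 h2) h3
    · rw [homogeneousComponent_eq_zero (D - e) p (by omega), zero_mul]
      refine sum_eq_zero fun i hi => ?_
      rw [mem_range] at hi
      rw [if_neg (by omega)]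
  · rw [zero_mul]
    refine sum_eq_zero fun i hi => ?_
    rw [if_neg (by omega)]

lemma cmp_mul {e e' : ℕ} {f : MvPolynomial σ k} (hf : f.IsHomogeneous e') (D : ℕ)
    (p : MvPolynomial σ k) : cmp D e (p * f) = cmp D (e + e') p * f := by
  by_cases h : e ≤ D
  · have h1 : cmp D e (p * f) = homogeneousComponent (D - e) (p * f) := if_pos h
    rw [h1, component_mul hf]
    congr 1
    unfold cmp
    by_cases h2 : e + e' ≤ D
    · rw [if_pos h2, if_pos (by omega), Nat.sub_add_eq]
    · rw [if_neg h2, if_neg (by omega)]
  · unfold cmp
    rw [if_neg h, if_neg (by omega), zero_mul]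

lemma cmp_cmp (D e : ℕ) (p : MvPolynomial σ k) : cmp D e (cmp D e p) = cmp D e p := by
  unfold cmp
  split_ifs
  · exact homogeneousComponent_eq_self (homogeneousComponent_isHomogeneous _ _)
  · rfl

lemma sum_cmp (e M : ℕ) (p : MvPolynomial σ k) (h : p.totalDegree + e < M) :
    ∑ D ∈ range M, cmp D e p = p := by
  have h1 : ∑ D ∈ range M, cmp D e p = ∑ D ∈ Ico e M, homogeneousComponent (D - e) p := by
    rw [← Finset.sum_filter_add_sum_filter_not (range M) (fun D => e ≤ D)]
    have h2 : ∑ D ∈ (range M).filter (fun D => ¬ e ≤ D), cmp D e p = 0 := by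
      refine sum_eq_zero fun D hD => ?_
      unfold cmp
      rw [if_neg (mem_filter.1 hD).2]
    rw [h2, add_zero]
    refine sum_congr ?_ fun D hD => ?_
    · ext D
      simp only [mem_filter, mem_range, mem_Ico]
      exact and_comm
    · unfold cmp
      rw [if_pos (mem_Ico.1 hD).1]
  rw [h1, Finset.sum_Ico_eq_sum_range]
  simp only [Nat.add_sub_cancel_left]
  conv_rhs => rw [← sum_homogeneousComponent p]
  refine (sum_subset (range_subset_range.2 (by omega)) fun i _ hi => ?_).symm
  rw [mem_range] at hi
  exact homogeneousComponent_eq_zero i p (by omega)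

variable {ι κ : Type*} [Fintype ι] [Fintype κ]

lemma Kos.inst {R : Type*} [CommRing R] {ι : Type*} {i1 i2 : Fintype ι} {f : ι → R}
    (h : @Kos R _ ι i1 f) : @Kos R _ ι i2 f := by
  rw [Subsingleton.elim i2 i1]
  exact h

lemma Kos.of_option {f : Option ι → MvPolynomial σ k} {e : Option ι → ℕ}
    (hf : ∀ i, (f i).IsHomogeneous (e i)) (h0 : 0 < e none) (h : Kos f) :
    Kos (fun i => f (some i)) := by
  -- homogeneous relations
  have H : ∀ D : ℕ, ∀ a : ι → MvPolynomial σ k, (∀ i, cmp D (e (some i)) (a i) = a i) →
      ∑ i, a i * f (some i) = 0 → Triv (fun i => f (some i)) a := by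
    intro D
    induction D using Nat.strong_induction_on with
    | _ D ih =>
      intro a ha hrel
      obtain ⟨U, hU⟩ := h (fun i => match i with
        | none => 0
        | some i => a i) (by
          rw [Fintype.sum_option]
          simpa using hrel)
      set w : ι → MvPolynomial σ k := fun i => U (some i) none - U none (some i) with hw
      have hw0 : ∑ i, w i * f (some i) = 0 := by
        have := hU none
        rw [Fintype.sum_option] at this
        simp only [sub_self, zero_mul, zero_add] at this
        have e1 : ∑ i, w i * f (some i) = - ∑ j, (U none (some j) - U (some j) none) * f (some j) := by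
          rw [← sum_neg_distrib]
          exact sum_congr rfl fun i _ => by rw [hw]; ring
        rw [e1, ← this, neg_zero]
      have ha1 : ∀ i, a i = ∑ j, (U (some i) (some j) - U (some j) (some i)) * f (some j) + w i * f none := by
        intro i
        have := hU (some i)
        rw [Fintype.sum_option] at this
        simp only at this
        rw [this, add_comm]
      have ha2 : ∀ i, a i = ∑ j, (cmp D (e (some i) + e (some j)) (U (some i) (some j)) -
          cmp D (e (some j) + e (some i)) (U (some j) (some i))) * f (some j) +
            cmp D (e (some i) + e none) (w i) * f none := by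
        intro i
        conv_lhs => rw [← ha i, ha1 i]
        rw [cmp_add, cmp_mul (hf none), cmp_sum]
        congr 1
        refine sum_congr rfl fun j _ => ?_
        rw [cmp_mul (hf (some j)), cmp_sub, add_comm (e (some j))]
      have hw1 : Triv (fun i => f (some i)) (fun i => cmp D (e (some i) + e none) (w i)) := by
        by_cases hD : e none ≤ D
        · have hc : ∀ i, cmp D (e (some i) + e none) (w i) = cmp (D - e none) (e (some i)) (w i) := by
            intro i
            unfold cmp
            by_cases h2 : e (some i) + e none ≤ D
            · rw [if_pos h2, if_pos (by omega)]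
              congr 2
              omega
            · rw [if_neg h2, if_neg (by omega)]
          simp only [hc]
          refine ih (D - e none) (by omega) _ (fun i => cmp_cmp _ _ _) ?_
          have e2 : ∑ i, cmp (D - e none) (e (some i)) (w i) * f (some i) =
              homogeneousComponent (D - e none) (∑ i, w i * f (some i)) := by
            rw [map_sum]
            exact sum_congr rfl fun i _ => (component_mul (hf (some i)) _ _).symm
          rw [e2, hw0, map_zero]
        · have hc : (fun i => cmp D (e (some i) + e none) (w i)) = 0 := by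
            funext i
            unfold cmp
            rw [if_neg (by omega)]
            rfl
          rw [hc]
          exact Triv.zero _
      have h3 : a = (fun i => ∑ j, (cmp D (e (some i) + e (some j)) (U (some i) (some j)) -
          cmp D (e (some j) + e (some i)) (U (some j) (some i))) * f (some j)) +
            f none • (fun i => cmp D (e (some i) + e none) (w i)) := by
        funext i
        rw [Pi.add_apply, Pi.smul_apply, smul_eq_mul]
        conv_lhs => rw [ha2 i]
        ring
      rw [h3]
      exact Triv.add ⟨fun i j => cmp D (e (some i) + e (some j)) (U (some i) (some j)), fun i => rfl⟩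
        (hw1.smul _)
  intro a ha
  set M : ℕ := ∑ i, ((a i).totalDegree + e (some i)) + 1 with hM
  have h4 : a = ∑ D ∈ range M, fun i => cmp D (e (some i)) (a i) := by
    funext i
    rw [Finset.sum_apply]
    refine (sum_cmp _ M _ ?_).symm
    have := Finset.single_le_sum (f := fun i => (a i).totalDegree + e (some i))
      (fun i _ => Nat.zero_le _) (mem_univ i)
    omega
  rw [h4]
  refine Triv.sum _ _ fun D _ => H D _ (fun i => cmp_cmp _ _ _) ?_
  have e2 : ∑ i, cmp D (e (some i)) (a i) * f (some i) =
      homogeneousComponent D (∑ i, a i * f (some i)) := by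
    rw [map_sum]
    exact sum_congr rfl fun i _ => (component_mul (hf (some i)) _ _).symm
  rw [e2, ha, map_zero]

lemma Kos.of_sum {κ : Type*} [Finite κ] : ∀ [Fintype κ] (F : ι ⊕ κ → MvPolynomial σ k)
    (e : ι ⊕ κ → ℕ), (∀ i, (F i).IsHomogeneous (e i)) → (∀ m, 0 < e (Sum.inr m)) → Kos F →
      Kos (fun i => F (Sum.inl i)) := by
  refine Finite.induction_empty_option (P := fun κ => ∀ [Fintype κ] (F : ι ⊕ κ → MvPolynomial σ k)
    (e : ι ⊕ κ → ℕ), (∀ i, (F i).IsHomogeneous (e i)) → (∀ m, 0 < e (Sum.inr m)) → Kos F →
      Kos (fun i => F (Sum.inl i))) ?_ ?_ ?_ κ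
  · intro α β eq ih _ F e hF he hK
    have : Fintype α := Fintype.ofEquiv β eq.symm
    have hK' : Kos (fun i : ι ⊕ α => F (Equiv.sumCongr (Equiv.refl ι) eq i)) := by
      refine Kos.of_equiv (Equiv.sumCongr (Equiv.refl ι) eq.symm) ?_
      convert hK using 2 with i
      cases i <;> simp
    exact ih (fun i : ι ⊕ α => F (Equiv.sumCongr (Equiv.refl ι) eq i))
      (fun i => e (Equiv.sumCongr (Equiv.refl ι) eq i)) (fun i => hF _) (fun m => he _) hK'
  · intro _ F e _ _ hK
    refine Kos.of_equiv (Equiv.sumEmpty ι PEmpty) ?_
    convert hK using 2 with i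
    cases i with
    | inl i => simp
    | inr i => exact i.elim
  · intro α _ ih _ F e hF he hK
    let eq : Option (ι ⊕ α) ≃ ι ⊕ Option α :=
      { toFun := fun x => match x with
          | none => Sum.inr none
          | some (Sum.inl i) => Sum.inl i
          | some (Sum.inr m) => Sum.inr (some m)
        invFun := fun x => match x with
          | Sum.inl i => some (Sum.inl i)
          | Sum.inr none => none
          | Sum.inr (some m) => some (Sum.inr m)
        left_inv := by
          rintro (_ | (_ | _)) <;> rfl
        right_inv := by
          rintro (_ | (_ | _)) <;> rfl }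
    have hK1 : Kos (fun x => F (eq x)) := by
      refine Kos.of_equiv eq.symm ?_
      convert hK using 2 with i
      simp
    have hK2 := Kos.of_option (e := fun x => e (eq x)) (fun i => hF _) (he none) hK1
    have hK3 := ih (fun x => F (eq (some x))) (fun x => e (eq (some x))) (fun i => hF _)
      (fun m => he (some m)) (by convert hK2)
    exact hK3

/-- homogeneous polynomials of positive degree without nontrivial relations -/
lemma regular_of_kos {n : ℕ} (f : Fin n → MvPolynomial σ k) (e : Fin n → ℕ)
    (hf : ∀ i, (f i).IsHomogeneous (e i)) (he : ∀ i, 0 < e i) (h : Kos f) :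
    RingTheory.Sequence.IsWeaklyRegular (MvPolynomial σ k) (List.ofFn f) := by
  have H : ∀ d m (hm : m + d = n), Kos (fun i : Fin m => f ⟨i, by omega⟩) := by
    intro d
    induction d with
    | zero =>
      intro m hm
      obtain rfl : m = n := by omega
      exact h
    | succ d ih =>
      intro m hm
      have h1 := ih (m + 1) (by omega)
      have h2 : Kos (fun x : Option (Fin m) =>
          (fun i : Fin (m + 1) => f ⟨i, by omega⟩) ((finSuccEquivLast (n := m)).symm x)) := by
        refine Kos.of_equiv (finSuccEquivLast (n := m)) ?_
        simpa using h1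
      have h3 := Kos.of_option (e := fun x => e ⟨((finSuccEquivLast (n := m)).symm x), by omega⟩)
        (fun i => hf _) (he _) h2
      simpa using h3
  refine ⟨fun i hi => ?_⟩
  have hi' : i < n := by simpa using hi
  rw [regular_mod_iff]
  intro b hb
  rw [span_take _ _ hi.le] at hb ⊢
  have h1 := H (n - (i + 1)) (i + 1) (by omega)
  have h2 : Kos (fun x : Option (Fin i) =>
      (fun j : Fin (i + 1) => f ⟨j, by omega⟩) ((finSuccEquivLast (n := i)).symm x)) := by
    refine Kos.of_equiv (finSuccEquivLast (n := i)) ?_
    simpa using h1
  have h3 := h2.mem_of_option (b := b) (by simpa using hb)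
  simpa using h3

/-- the variables have only the trivial relations -/
lemma kos_X {σ : Type*} {ι : Type*} [Finite ι] : ∀ [Fintype ι] (v : ι → σ), Function.Injective v →
    Kos (fun i => (X (v i) : MvPolynomial σ k)) := by
  refine Finite.induction_empty_option (P := fun ι => ∀ [Fintype ι] (v : ι → σ), Function.Injective v →
    Kos (fun i => (X (v i) : MvPolynomial σ k))) ?_ ?_ ?_ ι
  · intro α β eq ih _ v hv
    have : Fintype α := Fintype.ofEquiv β eq.symm
    refine Kos.of_equiv eq ?_
    exact ih (fun i => v (eq i)) (hv.comp eq.injective)
  · intro _ v _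
    exact Kos.empty _
  · intro α _ ih _ v hv
    have h1 := ih (fun i => v (some i)) (hv.comp (Option.some_injective _))
    refine Kos.inst (i1 := instFintypeOption) (@Kos.option _ _ α _ (fun i : Option α => (X (v i) : MvPolynomial σ k)) h1 ?_)
    · intro b hb
      have hr : (Set.range fun i : α => (X (v (some i)) : MvPolynomial σ k)) =
          X '' (Set.range fun i : α => v (some i)) := by
        ext y
        simp
      rw [hr, mem_ideal_span_X_image] at hb ⊢
      intro m hm
      obtain ⟨i, ⟨j, rfl⟩, hi⟩ := hb (m + Finsupp.single (v none) 1) (by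
        rw [mem_support_iff, coeff_mul_X]
        exact mem_support_iff.1 hm)
      refine ⟨v (some j), ⟨j, rfl⟩, ?_⟩
      have hne : v none ≠ v (some j) := fun h => by
        have := hv h
        cases this
      simpa [Finsupp.single_apply, hne] using hi

end Pool.Agent.U643.LSS
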