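import Mathlib

/-!
# Relations between the members of a regular sequence

`Kos f`: all relations between the `f i` are combinations of the trivial ones `f j * f i - f i * f j`.
-/

set_option autoImplicit false

namespace Pool.Agent.U643.LSS

open MvPolynomial Finset

variable {R : Type*} [CommRing R] {ι κ : Type*} [Fintype ι] [Fintype κ]

/-- the trivial relations -/
def Triv (f : ι → R) (a : ι → R) : Prop := ∃ U : ι → ι → R, ∀ i, a i = ∑ j, (U i j - U j i) * f j

/-- all relations are trivial -/
def Kos (f : ι → R) : Prop := ∀ a : ι → R, ∑ i, a i * f i = 0 → Triv f a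

lemma Triv.add {f a b : ι → R} (ha : Triv f a) (hb : Triv f b) : Triv f (a + b) := by
  obtain ⟨U, hU⟩ := ha
  obtain ⟨W, hW⟩ := hb
  refine ⟨fun i j => U i j + W i j, fun i => ?_⟩
  rw [Pi.add_apply, hU, hW, ← sum_add_distrib]
  exact sum_congr rfl fun j _ => by ring

lemma Triv.zero (f : ι → R) : Triv f 0 := ⟨fun _ _ => 0, fun i => by simp⟩

lemma Triv.smul {f a : ι → R} (c : R) (ha : Triv f a) : Triv f (c • a) := by
  obtain ⟨U, hU⟩ := ha
  refine ⟨fun i j => c * U i j, fun i => ?_⟩
  rw [Pi.smul_apply, smul_eq_mul, hU, mul_sum]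
  exact sum_congr rfl fun j _ => by ring

lemma Triv.sum {f : ι → R} {α : Type*} (s : Finset α) (a : α → ι → R) (h : ∀ x ∈ s, Triv f (a x)) :
    Triv f (∑ x ∈ s, a x) := by
  classical
  induction s using Finset.induction_on with
  | empty => simpa using Triv.zero f
  | insert x s hx ih =>
    rw [sum_insert hx]
    exact (h x (mem_insert_self _ _)).add (ih fun y hy => h y (mem_insert_of_mem hy))

/-- `f k • a` is trivial for every relation `a` -/
lemma triv_mul_mem {f a : ι → R} (h : ∑ i, a i * f i = 0) {c : R} (hc : c ∈ Ideal.span (Set.range f)) :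
    Triv f (c • a) := by
  classical
  obtain ⟨u, rfl⟩ := (Ideal.mem_span_range_iff_exists_fun (R := R)).1 hc
  refine ⟨fun i j => a i * u j, fun i => ?_⟩
  have e : ∑ j, (a i * u j - a j * u i) * f j = a i * ∑ j, u j * f j - u i * ∑ j, a j * f j := by
    rw [mul_sum, mul_sum, ← sum_sub_distrib]
    exact sum_congr rfl fun j _ => by ring
  rw [e, h, mul_zero, sub_zero, Pi.smul_apply, smul_eq_mul, mul_comm]

lemma Kos.of_equiv (e : ι ≃ κ) {f : κ → R} (h : Kos (fun i => f (e i))) : Kos f := by
  intro a ha
  obtain ⟨U, hU⟩ := h (fun i => a (e i)) (by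
    rw [← ha]
    exact Fintype.sum_equiv e _ _ fun i => rfl)
  refine ⟨fun i j => U (e.symm i) (e.symm j), fun i => ?_⟩
  have := hU (e.symm i)
  simp only [Equiv.apply_symm_apply] at this
  rw [this]
  exact Fintype.sum_equiv e _ _ fun j => by simp

lemma Kos.empty [IsEmpty ι] (f : ι → R) : Kos f := fun _ _ => ⟨fun _ _ => 0, fun i => isEmptyElim i⟩

lemma Kos.option {f : Option ι → R} (h : Kos fun i => f (some i))
    (hx : ∀ b, b * f none ∈ Ideal.span (Set.range fun i => f (some i)) →
      b ∈ Ideal.span (Set.range fun i => f (some i))) : Kos f := by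
  intro a ha
  rw [Fintype.sum_option] at ha
  have h1 : a none ∈ Ideal.span (Set.range fun i => f (some i)) := by
    refine hx _ ?_
    rw [Ideal.mem_span_range_iff_exists_fun]
    refine ⟨fun i => - a (some i), ?_⟩
    simp only [neg_mul, sum_neg_distrib]
    linear_combination -ha
  obtain ⟨c, hc⟩ := (Ideal.mem_span_range_iff_exists_fun (R := R)).1 h1
  obtain ⟨U, hU⟩ := h (fun i => a (some i) + c i * f none) (by
    simp only [add_mul, sum_add_distrib]
    have e : ∑ i, c i * f none * f (some i) = (∑ i, c i * f (some i)) * f none := by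
      rw [sum_mul]
      exact sum_congr rfl fun i _ => by ring
    rw [e, hc]
    linear_combination ha)
  refine ⟨fun i j => match i, j with
    | none, none => 0
    | none, some j => c j
    | some _, none => 0
    | some i, some j => U i j, fun i => ?_⟩
  cases i with
  | none =>
    rw [Fintype.sum_option]
    simp [hc]
  | some i =>
    rw [Fintype.sum_option]
    have := hU i
    simp only [zero_sub]
    linear_combination this

/-- the reverse of the previous lemma, first part -/
lemma Kos.mem_of_option {f : Option ι → R} (h : Kos f) {b : R}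
    (hb : b * f none ∈ Ideal.span (Set.range fun i => f (some i))) :
    b ∈ Ideal.span (Set.range fun i => f (some i)) := by
  obtain ⟨c, hc⟩ := (Ideal.mem_span_range_iff_exists_fun (R := R)).1 hb
  obtain ⟨U, hU⟩ := h (fun i => match i with
    | none => b
    | some i => - c i) (by
      rw [Fintype.sum_option]
      simp only [neg_mul, sum_neg_distrib]
      linear_combination -hc)
  have := hU none
  rw [Fintype.sum_option] at this
  simp only [sub_self, zero_mul, zero_add] at this
  rw [this]
  exact Ideal.sum_mem _ fun i _ => Ideal.mul_mem_left _ _ (Ideal.subset_span ⟨i, rfl⟩)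

lemma span_take (rs : List R) (n : ℕ) (h : n ≤ rs.length) :
    Ideal.ofList (rs.take n) = Ideal.span (Set.range fun i : Fin n => rs[(i : ℕ)]'(i.2.trans_le h)) := by
  unfold Ideal.ofList
  congr 1
  ext x
  simp only [Set.mem_ofPred_eq, Set.mem_range, List.mem_take_iff_getElem]
  constructor
  · rintro ⟨i, hi, rfl⟩
    exact ⟨⟨i, lt_of_lt_of_le hi (min_le_left _ _)⟩, rfl⟩
  · rintro ⟨i, rfl⟩
    exact ⟨i, lt_min i.2 (i.2.trans_le h), rfl⟩

lemma smul_top_eq (I : Ideal R) : (I • ⊤ : Submodule R R) = I := by
  rw [smul_eq_mul, Ideal.mul_top]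

lemma regular_mod_iff (I : Ideal R) (r : R) :
    IsSMulRegular (R ⧸ (I • ⊤ : Submodule R R)) r ↔ ∀ b, b * r ∈ I → b ∈ I := by
  rw [smul_top_eq]
  rw [isSMulRegular_quotient_iff_mem_of_smul_mem]
  simp only [smul_eq_mul]
  exact forall_congr' fun b => by rw [mul_comm]

lemma kos_of_regular (rs : List R) (h : RingTheory.Sequence.IsWeaklyRegular R rs) :
    Kos (fun i : Fin rs.length => rs[(i : ℕ)]) := by
  suffices H : ∀ n (hn : n ≤ rs.length), Kos (fun i : Fin n => rs[(i : ℕ)]'(i.2.trans_le hn)) from
    H _ le_rfl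
  intro n
  induction n with
  | zero => exact fun _ => Kos.empty _
  | succ n ih =>
    intro hn
    have h1 := ih ((Nat.le_succ n).trans hn)
    have h2 := (regular_mod_iff _ _).1 (h.regular_mod_prev n hn)
    rw [span_take rs n ((Nat.le_succ n).trans hn)] at h2
    refine Kos.of_equiv (finSuccEquivLast (n := n)).symm ?_
    refine Kos.option ?_ ?_
    · simpa using h1
    · simpa using h2

/-- adding generators of the kernel of a retraction -/
lemma Kos.lift {S : Type*} [CommRing S] (φ : S →+* R) (σ : R →+* S) (hσ : ∀ x, φ (σ x) = x)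
    {z : κ → S} (hz : Kos z) (hker : ∀ x, φ x = 0 → x ∈ Ideal.span (Set.range z))
    (hz0 : ∀ m, φ (z m) = 0) {f : ι → S} (hf : Kos fun i => φ (f i)) : Kos (Sum.elim f z) := by
  intro a ha
  rw [Fintype.sum_sum_type] at ha
  simp only [Sum.elim_inl, Sum.elim_inr] at ha
  obtain ⟨U, hU⟩ := hf (fun i => φ (a (Sum.inl i))) (by
    have := congrArg φ ha
    rw [map_add, map_sum, map_sum, map_zero] at this
    simp only [map_mul, hz0, mul_zero, sum_const_zero, add_zero] at this
    exact this)
  have h1 : ∀ i, ∃ u : κ → S, a (Sum.inl i) - ∑ j, (σ (U i j) - σ (U j i)) * f j = ∑ m, u m * z m := by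
    intro i
    obtain ⟨u, hu⟩ := (Ideal.mem_span_range_iff_exists_fun (R := S)).1
      (hker (a (Sum.inl i) - ∑ j, (σ (U i j) - σ (U j i)) * f j) (by
        have hUi := hU i
        simp only at hUi
        rw [map_sub, map_sum, hUi, sub_eq_zero]
        exact sum_congr rfl fun j _ => by rw [map_mul, map_sub, hσ, hσ]))
    exact ⟨u, hu.symm⟩
  choose u hu using h1
  have h2 : ∑ i, ∑ j, (σ (U i j) - σ (U j i)) * f j * f i = 0 := by
    have e1 : ∑ i, ∑ j, (σ (U i j) - σ (U j i)) * f j * f i =
        ∑ i, ∑ j, σ (U i j) * f j * f i - ∑ i, ∑ j, σ (U j i) * f j * f i := by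
      rw [← sum_sub_distrib]
      refine sum_congr rfl fun i _ => ?_
      rw [← sum_sub_distrib]
      exact sum_congr rfl fun j _ => by ring
    rw [e1, sub_eq_zero, sum_comm]
    exact sum_congr rfl fun i _ => sum_congr rfl fun j _ => by ring
  have h3 : ∑ i, a (Sum.inl i) * f i = ∑ i, (∑ m, u i m * z m) * f i := by
    have e1 : ∑ i, (∑ m, u i m * z m) * f i =
        ∑ i, a (Sum.inl i) * f i - ∑ i, ∑ j, (σ (U i j) - σ (U j i)) * f j * f i := by
      rw [← sum_sub_distrib]
      refine sum_congr rfl fun i _ => ?_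
      rw [← hu i, sub_mul, sum_mul]
    rw [e1, h2, sub_zero]
  obtain ⟨W, hW⟩ := hz (fun m => a (Sum.inr m) + ∑ i, u i m * f i) (by
    simp only [add_mul, sum_add_distrib]
    have e1 : ∑ m, (∑ i, u i m * f i) * z m = ∑ i, (∑ m, u i m * z m) * f i := by
      simp only [sum_mul]
      rw [sum_comm]
      exact sum_congr rfl fun i _ => sum_congr rfl fun m _ => by ring
    rw [e1, ← h3]
    linear_combination ha)
  refine ⟨fun x y => match x, y with
    | Sum.inl i, Sum.inl j => σ (U i j)
    | Sum.inl i, Sum.inr m => u i m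
    | Sum.inr _, Sum.inl _ => 0
    | Sum.inr m, Sum.inr n => W m n, fun x => ?_⟩
  rw [Fintype.sum_sum_type]
  cases x with
  | inl i =>
    simp only [Sum.elim_inl, Sum.elim_inr, sub_zero]
    linear_combination hu i
  | inr m =>
    simp only [Sum.elim_inl, Sum.elim_inr, zero_sub, neg_mul, sum_neg_distrib]
    linear_combination hW m

/-- another minimal system of generators of an ideal with a regular system of generators -/
lemma Kos.change {k : Type*} [Field k] (ε : R →+* k) {g : κ → R} (hg : Kos g) {f : ι → R}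
    (hfg : Ideal.span (Set.range f) = Ideal.span (Set.range g)) (hf0 : ∀ i, ε (f i) = 0)
    (hmin : ∀ a : ι → R, ∑ i, a i * f i = 0 → ∀ i, ε (a i) = 0) : Kos f := by
  classical
  set I : Ideal R := Ideal.span (Set.range g) with hI
  have hIε : ∀ x ∈ I, ε x = 0 := by
    intro x hx
    rw [← hfg] at hx
    have : Ideal.span (Set.range f) ≤ RingHom.ker ε := by
      rw [Ideal.span_le]
      rintro _ ⟨i, rfl⟩
      exact hf0 i
    exact this hx
  have h1 : ∀ i, ∃ u : κ → R, ∑ j, u j * g j = f i := by
    intro i
    have : f i ∈ I := by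
      rw [← hfg]
      exact Ideal.subset_span ⟨i, rfl⟩
    exact (Ideal.mem_span_range_iff_exists_fun (R := R)).1 this
  have h2 : ∀ j, ∃ u : ι → R, ∑ i, u i * f i = g j := by
    intro j
    have : g j ∈ Ideal.span (Set.range f) := by
      rw [hfg]
      exact Ideal.subset_span ⟨j, rfl⟩
    exact (Ideal.mem_span_range_iff_exists_fun (R := R)).1 this
  choose G hG using h1
  choose H hH using h2
  have hgI : ∀ a : κ → R, ∑ j, a j * g j = 0 → ∀ j, a j ∈ I := by
    intro a ha j
    obtain ⟨U, hU⟩ := hg a ha
    rw [hU j]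
    exact Ideal.sum_mem _ fun l _ => Ideal.mul_mem_left _ _ (Ideal.subset_span ⟨l, rfl⟩)
  let G' : Matrix ι κ R := Matrix.of G
  let H' : Matrix κ ι R := Matrix.of H
  have hHG : ∀ j l, (H' * G') j l - (1 : Matrix κ κ R) j l ∈ I := by
    intro j l
    refine hgI (fun l => (H' * G') j l - (1 : Matrix κ κ R) j l) ?_ l
    simp only [sub_mul, sum_sub_distrib]
    rw [sub_eq_zero]
    have e1 : ∑ l, (H' * G') j l * g l = g j := by
      simp only [Matrix.mul_apply, sum_mul]
      rw [sum_comm]
      rw [← hH j]
      refine sum_congr rfl fun i _ => ?_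
      rw [← hG i, mul_sum]
      exact sum_congr rfl fun l _ => by
        show H j i * G i l * g l = H j i * (G i l * g l)
        ring
    rw [e1]
    simp [Matrix.one_apply]
  have hGH : ∀ i p, ε ((G' * H') i p - (1 : Matrix ι ι R) i p) = 0 := by
    intro i p
    refine hmin (fun p => (G' * H') i p - (1 : Matrix ι ι R) i p) ?_ p
    simp only [sub_mul, sum_sub_distrib]
    rw [sub_eq_zero]
    have e1 : ∑ l, (G' * H') i l * f l = f i := by
      simp only [Matrix.mul_apply, sum_mul]
      rw [sum_comm]
      rw [← hG i]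
      refine sum_congr rfl fun j _ => ?_
      rw [← hH j, mul_sum]
      exact sum_congr rfl fun l _ => by
        show G i j * H j l * f l = G i j * (H j l * f l)
        ring
    rw [e1]
    simp [Matrix.one_apply]
  have hcard : Fintype.card ι = Fintype.card κ := by
    refine Matrix.square_of_invertible (G'.map ε) (H'.map ε) ?_ ?_
    · ext i p
      have := hGH i p
      rw [map_sub, sub_eq_zero] at this
      rw [← Matrix.map_mul, Matrix.map_apply, this]
      simp [Matrix.one_apply, apply_ite]
    · ext j l
      have := hIε _ (hHG j l)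
      rw [map_sub, sub_eq_zero] at this
      rw [← Matrix.map_mul, Matrix.map_apply, this]
      simp [Matrix.one_apply, apply_ite]
  let e : ι ≃ κ := Fintype.equivOfCardEq hcard
  let A : Matrix ι ι R := Matrix.of fun i j => G i (e j)
  let B : Matrix ι ι R := Matrix.of fun i j => H (e i) j
  let q := Ideal.Quotient.mk I
  have hdet : q (B.det * A.det) = 1 := by
    rw [← Matrix.det_mul, RingHom.map_det, RingHom.mapMatrix_apply]
    have : (B * A).map q = 1 := by
      ext i j
      rw [Matrix.map_apply]
      have h3 := hHG (e i) (e j)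
      have h4 : q ((H' * G') (e i) (e j)) = q ((1 : Matrix κ κ R) (e i) (e j)) :=
        (Ideal.Quotient.eq).2 h3
      have h5 : (B * A) i j = (H' * G') (e i) (e j) := rfl
      rw [h5, h4]
      simp only [Matrix.one_apply, EmbeddingLike.apply_eq_iff_eq]
      split_ifs <;> simp
    rw [this, Matrix.det_one]
  intro a ha
  have hb : ∑ j, (∑ i, a i * G i j) * g j = 0 := by
    rw [← ha]
    simp only [sum_mul]
    rw [sum_comm]
    refine sum_congr rfl fun i _ => ?_
    rw [← hG i, mul_sum]
    exact sum_congr rfl fun j _ => by ring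
  obtain ⟨U, hU⟩ := hg _ hb
  -- the matrix `U` on `ι`
  let T : Matrix ι ι R := Matrix.of fun i j => U (e i) (e j)
  let γ : ι → R := fun i => g (e i)
  have hf : f = A.mulVec γ := by
    funext i
    rw [← hG i]
    simp only [Matrix.mulVec, dotProduct]
    exact (Fintype.sum_equiv e _ _ fun j => rfl).symm
  have haA : Matrix.vecMul a A = (T - T.transpose).mulVec γ := by
    funext j
    have := hU (e j)
    simp only at this
    simp only [Matrix.vecMul, Matrix.mulVec, dotProduct]
    rw [show ∑ i, a i * A i j = ∑ i, a i * G i (e j) from rfl, this]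
    exact (Fintype.sum_equiv e _ _ fun j => rfl).symm
  have hadj : A.adjugate.mulVec f = A.det • γ := by
    rw [hf, Matrix.mulVec_mulVec, Matrix.adjugate_mul, Matrix.smul_mulVec, Matrix.one_mulVec]
  have hda : A.det • a = Matrix.vecMul (Matrix.vecMul a A) A.adjugate := by
    rw [Matrix.vecMul_vecMul, Matrix.mul_adjugate]
    funext i
    simp [Matrix.vecMul, dotProduct, Matrix.one_apply, mul_comm]
  have hT : Triv f (A.det • A.det • a) := by
    let W : Matrix ι ι R := A.adjugate.transpose * T * A.adjugate
    refine ⟨fun i j => W i j, fun i => ?_⟩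
    have h6 : A.det • A.det • a = (W - W.transpose).mulVec f := by
      have h7 : W - W.transpose = A.adjugate.transpose * (T - T.transpose) * A.adjugate := by
        simp only [W, Matrix.transpose_mul, Matrix.transpose_transpose, Matrix.mul_sub, Matrix.sub_mul,
          Matrix.mul_assoc]
      rw [h7, ← Matrix.mulVec_mulVec, hadj, Matrix.mulVec_smul, hda]
      congr 1
      rw [haA, ← Matrix.mulVec_mulVec, Matrix.mulVec_transpose]
    rw [h6]
    simp only [Matrix.mulVec, dotProduct, Matrix.sub_apply, Matrix.transpose_apply]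
  have hfin : a = (B.det * B.det) • (A.det • A.det • a) + (1 - (B.det * A.det) * (B.det * A.det)) • a := by
    funext i
    simp only [Pi.add_apply, Pi.smul_apply, smul_eq_mul]
    ring
  rw [hfin]
  refine (hT.smul _).add (triv_mul_mem ha ?_)
  rw [hfg]
  refine (Ideal.Quotient.eq_zero_iff_mem).1 ?_
  show q _ = 0
  rw [map_sub, map_one, map_mul, hdet, mul_one, sub_self]

end Pool.Agent.U643.LSS
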